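import Pool.Agent.Q165.DDCount

set_option autoImplicit false

/-!
# The conjectured inequality between ratios of double descent counts fails for `n = 7`, `i = 2`

`Q165.DDCount.isDD w i` says that `i` is a double descent of the permutation `w` and
`Q165.DDCount.dd I n` is the number of permutations of `n` letters whose set of double descents
is `I`.
-/

namespace Pool.Agent.Results.MP_f8a98e_co.Seven

open Q165.DDCount

theorem dd_two : dd {2} 7 = 426 := by
  rw [dd_eq {2} 6 (by simp)]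
  decide +kernel

theorem dd_three : dd {3} 7 = 363 := by
  rw [dd_eq {3} 6 (by simp)]
  decide +kernel

theorem dd_four : dd {4} 7 = 462 := by
  rw [dd_eq {4} 6 (by simp)]
  decide +kernel

theorem dd_five : dd {5} 7 = 363 := by
  rw [dd_eq {5} 6 (by simp)]
  decide +kernel

/-- For `n = 7` and the even index `i = 2 < ⌈7/2⌉ - 1` the ratio `dd({2};7) / dd({3};7) = 426/363`
is smaller than `dd({4};7) / dd({5};7) = 462/363`.  So the conjectured inequalities do not hold
for all `n` and `i < ⌈n/2⌉ - 1`. -/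
theorem result :
    (dd {2} 7 = 426 ∧ dd {3} 7 = 363 ∧ dd {4} 7 = 462 ∧ dd {5} 7 = 363) ∧
    ¬ ∀ n i : ℕ, 1 ≤ n → 1 ≤ i → (i : ℤ) < ⌈(n : ℚ) / 2⌉ - 1 →
      (Even i → (dd {i} n : ℚ) / dd {i + 1} n > (dd {i + 2} n : ℚ) / dd {i + 3} n) ∧
      (Odd i → (dd {i} n : ℚ) / dd {i + 1} n < (dd {i + 2} n : ℚ) / dd {i + 3} n) := by
  refine ⟨⟨dd_two, dd_three, dd_four, dd_five⟩, ?_⟩
  intro h
  have h1 := (h 7 2 (by norm_num) (by norm_num) (by
    have : (3 : ℤ) < ⌈((7 : ℕ) : ℚ) / 2⌉ := by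
      rw [Int.lt_ceil]
      norm_num
    push_cast
    push_cast at this
    omega)).1 (by norm_num)
  have e3 : (2 : ℕ) + 1 = 3 := rfl
  have e4 : (2 : ℕ) + 2 = 4 := rfl
  have e5 : (2 : ℕ) + 3 = 5 := rfl
  rw [e3, e4, e5, dd_two, dd_three, dd_four, dd_five] at h1
  norm_num at h1

end Pool.Agent.Results.MP_f8a98e_co.Seven
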